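import Pool.Agent.Helper38.FRX.Goals

/-!
# NUMC: the numerical condition
-/

set_option autoImplicit false

namespace Pool.Agent.Helper98.FRX

open Finset Pool.Agent.Helper38.FRX

private lemma exp_five : (96 : ℝ) ≤ Real.exp 5 := by
  have h1 := Real.exp_one_gt_d9
  have h2 : Real.exp 5 = Real.exp 1 ^ 5 := by rw [← Real.exp_nat_mul]; norm_num
  rw [h2]
  calc (96 : ℝ) ≤ (2.7182818283 : ℝ) ^ 5 := by norm_num
    _ ≤ Real.exp 1 ^ 5 := by gcongr

private lemma exp_17 : (17280864 : ℝ) ≤ Real.exp 17 := by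
  have h1 := Real.exp_one_gt_d9
  have h2 : Real.exp 17 = Real.exp 1 ^ 17 := by rw [← Real.exp_nat_mul]; norm_num
  rw [h2]
  calc (17280864 : ℝ) ≤ (2.7182818283 : ℝ) ^ 17 := by norm_num
    _ ≤ Real.exp 1 ^ 17 := by gcongr

theorem numc : Pool.Agent.Helper38.FRX.NumcStmt := by
  intro h lam r hh hh1 hr hlam
  have hr1 : (1 : ℝ) ≤ r := by exact_mod_cast hr
  have hr0 : (0 : ℝ) < r := by linarith
  obtain ⟨X, hXdef⟩ : ∃ X : ℝ, X = r / h := ⟨_, rfl⟩
  rw [← hXdef] at hlam
  have hhX : h * X = r := by rw [hXdef]; field_simp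
  have hX1 : 1 ≤ X := by
    rw [hXdef, le_div_iff₀ hh]; linarith
  have hX0 : 0 < X := by linarith
  have hXr : (r : ℝ) ≤ X := by
    rw [← hhX]; nlinarith
  obtain ⟨y, hydef⟩ : ∃ y : ℝ, y = 1 + Real.log X := ⟨_, rfl⟩
  rw [← hydef] at hlam
  have hy1 : 1 ≤ y := by
    have := Real.log_nonneg hX1
    linarith
  have hy0 : 0 < y := by linarith
  have hXy : X = Real.exp (y - 1) := by
    have e : y - 1 = Real.log X := by rw [hydef]; ring
    rw [e, Real.exp_log hX0]
  have hyX : y ≤ Real.exp (y - 1) := by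
    have := Real.add_one_le_exp (y - 1)
    linarith
  have hry : 1 ≤ (r : ℝ) * y := by nlinarith
  have hlam5 : 10 ^ 5 ≤ lam := by nlinarith
  have hXy1 : 1 ≤ X * y := by nlinarith
  obtain ⟨L, hLdef⟩ : ∃ L : ℕ, L = ⌈20000 * (X * y)⌉₊ := ⟨_, rfl⟩
  have hL1 : 20000 * (X * y) ≤ L := by rw [hLdef]; exact Nat.le_ceil _
  have hL2 : (L : ℝ) ≤ 20001 * (X * y) := by
    have := Nat.ceil_lt_add_one (a := 20000 * (X * y)) (by positivity)
    rw [← hLdef] at this
    linarith
  have hLpos : (0 : ℝ) < L := by linarith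
  obtain ⟨g, hgdef⟩ : ∃ g : ℕ, g = ⌊lam / (2 * h)⌋₊ := ⟨_, rfl⟩
  have hg1 : (g : ℝ) ≤ lam / (2 * h) := by
    rw [hgdef]
    apply Nat.floor_le
    apply div_nonneg <;> linarith
  have hg2 : lam / (2 * h) < g + 1 := by
    rw [hgdef]
    exact Nat.lt_floor_add_one _
  have hg3 : 2 * (h * g) ≤ lam := by
    rw [le_div_iff₀ (by linarith)] at hg1
    linarith
  have hg4 : lam < 2 * (h * g) + 2 * h := by
    rw [div_lt_iff₀ (by linarith)] at hg2
    linarith
  refine ⟨L, g, ?_, ?_, hg3, ?_, hlam5, ?_⟩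
  · exact_mod_cast hLpos
  · linarith
  · linarith
  · intro b k v z hb hv hk hz
    have hb9 : 10 ^ 5 * r * y ≤ 9 * b := hlam.trans hb
    have hb1 : (1 : ℝ) ≤ b := by linarith
    obtain ⟨B, hB⟩ : ∃ B : ℝ, B = b / r := ⟨_, rfl⟩
    have hBr : B * r = b := by rw [hB]; field_simp
    have hB0 : 0 < B := by
      rw [hB]
      exact div_pos (by linarith) hr0
    have hyB : 10 ^ 5 * y ≤ 9 * B := by
      have h1 : (10 ^ 5 * y) * r ≤ (9 * B) * r := by
        rw [mul_assoc 9 B, hBr]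
        linarith
      exact le_of_mul_le_mul_right h1 hr0
    -- the logarithm
    have hA : 864 * (L : ℝ) ≤ Real.exp (17 * y) := by
      calc 864 * (L : ℝ) ≤ 17280864 * (X * y) := by linarith
        _ ≤ Real.exp 17 * (Real.exp (y - 1) * Real.exp (y - 1)) := by
            have := exp_17
            rw [hXy]
            gcongr
        _ = Real.exp (17 + (y - 1 + (y - 1))) := by
            rw [Real.exp_add, Real.exp_add]
        _ ≤ Real.exp (17 * y) := by
            apply Real.exp_le_exp.mpr; linarith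
    have hA2 : 24 * (L : ℝ) ≤ Real.exp (17 * y) := by linarith
    have hAk : (864 * (L : ℝ)) ^ k ≤ Real.exp (k * (17 * y)) := by
      rw [Real.exp_nat_mul]
      gcongr
    have hAv : (24 * (L : ℝ)) ^ v ≤ Real.exp (v * (17 * y)) := by
      rw [Real.exp_nat_mul]
      gcongr
    have hC : (1 + 1 / (24 * (L : ℝ))) ^ z ≤ Real.exp (z * (1 / (24 * (L : ℝ)))) := by
      rw [Real.exp_nat_mul]
      gcongr
      have := Real.add_one_le_exp (1 / (24 * (L : ℝ)))
      linarith
    -- the square root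
    obtain ⟨θ, hθdef⟩ : ∃ θ : ℝ, θ = 1 - 1 / (4 * (r : ℝ)) := ⟨_, rfl⟩
    have hθ0 : 0 ≤ θ := by
      rw [hθdef]
      have : 1 / (4 * (r : ℝ)) ≤ 1 := by
        rw [div_le_one (by positivity)]; linarith
      linarith
    have hθ1 : θ < 1 := by
      rw [hθdef]
      have : 0 < 1 / (4 * (r : ℝ)) := by positivity
      linarith
    rw [← hθdef]
    obtain ⟨s, hsdef⟩ : ∃ s : ℝ, s = Real.sqrt θ := ⟨_, rfl⟩
    have hs0 : 0 ≤ s := by rw [hsdef]; positivity
    have hss : s * s = θ := by rw [hsdef]; exact Real.mul_self_sqrt hθ0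
    have hs1 : s ≤ 1 := by nlinarith
    rw [← hsdef]
    have hs2 : 1 / (8 * (r : ℝ)) ≤ 1 - s := by
      have h1 : 1 - θ = 1 / (4 * (r : ℝ)) := by rw [hθdef]; ring
      have h2 : 1 - θ ≤ 2 * (1 - s) := by nlinarith
      have h3 : 1 / (4 * (r : ℝ)) = 2 * (1 / (8 * (r : ℝ))) := by field_simp; norm_num
      linarith
    have hs3 : s ≤ Real.exp (-(1 / (8 * (r : ℝ)))) := by
      have h1 := Real.add_one_le_exp (-(1 / (4 * (r : ℝ))))
      have h2 : θ ≤ Real.exp (-(1 / (4 * (r : ℝ)))) := by rw [hθdef]; linarith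
      have h3 : Real.exp (-(1 / (4 * (r : ℝ)))) = Real.exp (-(1 / (8 * (r : ℝ)))) ^ 2 := by
        rw [← Real.exp_nat_mul]; congr 1; field_simp; norm_num
      have h4 : s ^ 2 ≤ Real.exp (-(1 / (8 * (r : ℝ)))) ^ 2 := by
        rw [← h3, sq, hss]; exact h2
      exact le_of_sq_le_sq h4 (Real.exp_pos _).le
    have hsb : s ^ b ≤ Real.exp (b * (-(1 / (8 * (r : ℝ))))) := by
      rw [Real.exp_nat_mul]
      gcongr
    -- the constant
    have hD : 96 * (r : ℝ) ^ 3 ≤ Real.exp (5 * y) := by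
      have h1 : (r : ℝ) ≤ Real.exp (y - 1) := by rw [← hXy]; exact hXr
      calc 96 * (r : ℝ) ^ 3 ≤ Real.exp 5 * (Real.exp (y - 1)) ^ 3 := by
            have := exp_five
            gcongr
        _ = Real.exp (5 + 3 * (y - 1)) := by
            rw [Real.exp_add, ← Real.exp_nat_mul]; norm_num
        _ ≤ Real.exp (5 * y) := by
            apply Real.exp_le_exp.mpr; linarith
    have hE : 2 * Real.exp (-(5 * y)) ≤ 1 / (6 * (r : ℝ) ^ 2) * (1 - s) := by
      calc 2 * Real.exp (-(5 * y)) = 2 * (1 / Real.exp (5 * y)) := by rw [Real.exp_neg, one_div]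
        _ ≤ 2 * (1 / (96 * (r : ℝ) ^ 3)) := by gcongr
        _ = 1 / (6 * (r : ℝ) ^ 2) * (1 / (8 * (r : ℝ))) := by field_simp; norm_num
        _ ≤ 1 / (6 * (r : ℝ) ^ 2) * (1 - s) := by gcongr
    -- the exponents
    have e2 : (v : ℝ) * y ≤ 131 / 10 ^ 5 * B := by
      have h1 : 10 ^ 5 * r * y * v ≤ 131 * b := by
        have : 10 ^ 5 * r * y * v ≤ lam * v := by gcongr
        exact this.trans hv
      have h2 : (v * y) * r ≤ (131 / 10 ^ 5 * B) * r := by
        rw [mul_assoc (131 / 10 ^ 5) B, hBr]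
        linarith
      exact le_of_mul_le_mul_right h2 hr0
    have e1 : (k : ℝ) * y ≤ 16 / 20000 * B + v * y + 2 * y := by
      have h1 : h * (20000 * (X * y)) * ((k : ℝ) - (v + 2)) ≤ 16 * b := by
        by_cases hk1 : (v : ℝ) + 2 ≤ k
        · have h2 : h * L * ((k : ℝ) - (v + 2)) ≤ 16 * b := by linarith
          have h3 : h * (20000 * (X * y)) * ((k : ℝ) - (v + 2)) ≤
              h * L * ((k : ℝ) - (v + 2)) := by
            have : (0 : ℝ) ≤ (k : ℝ) - (v + 2) := by linarith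
            gcongr
          linarith
        · push Not at hk1
          have : h * (20000 * (X * y)) * ((k : ℝ) - (v + 2)) ≤ 0 := by
            apply mul_nonpos_of_nonneg_of_nonpos
            · positivity
            · linarith
          linarith
      have h2 : h * (20000 * (X * y)) * ((k : ℝ) - (v + 2)) =
          20000 * ((((k : ℝ) - (v + 2)) * y) * r) := by
        rw [← hhX]; ring
      rw [h2] at h1
      have h3 : (((k : ℝ) - (v + 2)) * y) * r ≤ (16 / 20000 * B) * r := by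
        rw [mul_assoc (16 / 20000) B, hBr]
        linarith
      have h4 := le_of_mul_le_mul_right h3 hr0
      linarith
    have e3 : (z : ℝ) * (1 / (24 * (L : ℝ))) ≤ 1 / 10 ^ 3 * B := by
      have h1 : h * z ≤ 10 * b := by linarith
      have h2 : (z : ℝ) * (1 / (24 * (L : ℝ))) ≤ z * (1 / (24 * (20000 * (X * y)))) := by
        gcongr
      have h3 : (z : ℝ) * (1 / (24 * (20000 * (X * y)))) ≤ 1 / 10 ^ 3 * B := by
        rw [mul_one_div, div_le_iff₀ (by positivity)]
        have h4 : (z : ℝ) * h ≤ (480 * (B * X * y)) * h := by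
          have h5 : (480 * (B * X * y)) * h = 480 * ((B * (h * X)) * y) := by ring
          rw [h5, hhX, hBr]
          have h6 : (b : ℝ) ≤ b * y := by nlinarith
          linarith
        have h7 := le_of_mul_le_mul_right h4 hh
        linarith
      linarith
    have e4 : (k : ℝ) * (17 * y) + (v : ℝ) * (17 * y) + (z : ℝ) * (1 / (24 * (L : ℝ))) +
        b * (-(1 / (8 * (r : ℝ)))) ≤ -(5 * y) := by
      have h1 : (b : ℝ) * (-(1 / (8 * (r : ℝ)))) = -(1 / 8 * B) := by
        rw [hB]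
        field_simp
      rw [h1]
      linarith
    have key : (864 * (L : ℝ)) ^ k * (24 * (L : ℝ)) ^ v * (1 + 1 / (24 * (L : ℝ))) ^ z * s ^ b ≤
        Real.exp (-(5 * y)) := by
      calc (864 * (L : ℝ)) ^ k * (24 * (L : ℝ)) ^ v * (1 + 1 / (24 * (L : ℝ))) ^ z * s ^ b
          ≤ Real.exp (k * (17 * y)) * Real.exp (v * (17 * y)) *
            Real.exp (z * (1 / (24 * (L : ℝ)))) * Real.exp (b * (-(1 / (8 * (r : ℝ))))) := by
            gcongr
        _ = Real.exp ((k : ℝ) * (17 * y) + (v : ℝ) * (17 * y) +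
              (z : ℝ) * (1 / (24 * (L : ℝ))) + b * (-(1 / (8 * (r : ℝ))))) := by
            rw [Real.exp_add, Real.exp_add, Real.exp_add]
        _ ≤ Real.exp (-(5 * y)) := Real.exp_le_exp.mpr e4
    have hθb : θ ^ b = s ^ b * s ^ b := by rw [← mul_pow, hss]
    calc 2 * ((864 * (L : ℝ)) ^ k * (24 * (L : ℝ)) ^ v * (1 + 1 / (24 * (L : ℝ))) ^ z) * θ ^ b
        = 2 * ((864 * (L : ℝ)) ^ k * (24 * (L : ℝ)) ^ v * (1 + 1 / (24 * (L : ℝ))) ^ z * s ^ b) *
            s ^ b := by rw [hθb]; ring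
      _ ≤ 2 * Real.exp (-(5 * y)) * s ^ b := by gcongr
      _ ≤ (1 / (6 * (r : ℝ) ^ 2) * (1 - s)) * s ^ b := by gcongr

end Pool.Agent.Helper98.FRX
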